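import Mathlib

namespace Pool.Agent.Work.MP_90e647_co

/-- Conway games: a family of Left options and a family of Right options. -/
inductive Game : Type 1
  | mk (α β : Type) (L : α → Game) (R : β → Game) : Game

/-- Conway's order. `Cmp true G H` is `G ≤ H`, and `Cmp false G H` is `G ⧏ H` (less or fuzzy). -/
inductive Cmp : Bool → Game → Game → Prop
  | le {α β γ δ : Type} {L : α → Game} {R : β → Game} {L' : γ → Game} {R' : δ → Game} :
      (∀ i, Cmp false (L i) (Game.mk γ δ L' R')) → (∀ j, Cmp false (Game.mk α β L R) (R' j)) →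
      Cmp true (Game.mk α β L R) (Game.mk γ δ L' R')
  | lfL {G : Game} {γ δ : Type} {L' : γ → Game} {R' : δ → Game} (i : γ) :
      Cmp true G (L' i) → Cmp false G (Game.mk γ δ L' R')
  | lfR {α β : Type} {L : α → Game} {R : β → Game} {H : Game} (j : β) :
      Cmp true (R j) H → Cmp false (Game.mk α β L R) H

/-- Equality of values: `G ≤ H` and `H ≤ G`. -/
def Equiv (G H : Game) : Prop := Cmp true G H ∧ Cmp true H G

/-- The game `0 = { | }`. -/
def zero : Game := Game.mk Empty Empty Empty.elim Empty.elim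

/-- The number `2^(-n)`: `1 = {0 | }` and `2^(-(n+1)) = {0 | 2^(-n)}`. -/
def powHalf (n : ℕ) : Game :=
  Nat.rec (Game.mk Unit Empty (fun _ => zero) Empty.elim)
    (fun _ G => Game.mk Unit Unit (fun _ => zero) (fun _ => G)) n

/-- Left may sow pot `i`: it is nonempty and pot `i + a i` exists and is nonempty. -/
def LegalL {k : ℕ} (a : Fin k → ℕ) (i : Fin k) : Prop :=
  1 ≤ a i ∧ ∃ j : Fin k, j.val = i.val + a i ∧ 1 ≤ a j

/-- Right may sow pot `i`: it is nonempty and pot `i - a i` exists and is nonempty. -/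
def LegalR {k : ℕ} (a : Fin k → ℕ) (i : Fin k) : Prop :=
  1 ≤ a i ∧ ∃ j : Fin k, j.val + a i = i.val ∧ 1 ≤ a j

/-- Left empties pot `i` and adds a seed to each of the pots `i+1, …, i + a i`. -/
def moveL {k : ℕ} (a : Fin k → ℕ) (i : Fin k) : Fin k → ℕ := fun j =>
  if j = i then 0 else if i.val < j.val ∧ j.val ≤ i.val + a i then a j + 1 else a j

/-- Right empties pot `i` and adds a seed to each of the pots `i-1, …, i - a i`. -/
def moveR {k : ℕ} (a : Fin k → ℕ) (i : Fin k) : Fin k → ℕ := fun j =>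
  if j = i then 0 else if j.val < i.val ∧ i.val ≤ j.val + a i then a j + 1 else a j

/-- `b` arises from `a` by a legal move of one of the players. -/
def Move {k : ℕ} (b a : Fin k → ℕ) : Prop :=
  ∃ i, (LegalL a i ∧ b = moveL a i) ∨ (LegalR a i ∧ b = moveR a i)

theorem sum_move {k : ℕ} {b a : Fin k → ℕ} (h : Move b a) : ∑ j, b j = ∑ j, a j := by
  obtain ⟨i, ⟨⟨h1, j, hj, -⟩, rfl⟩ | ⟨⟨h1, j, hj, -⟩, rfl⟩⟩ := h
  · have key : ∀ x, moveL a i x + (if x = i then a i else 0)
        = a x + (if x ∈ Finset.Ioc i j then 1 else 0) := by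
      intro x
      simp only [moveL, Finset.mem_Ioc, Fin.lt_def, Fin.le_def]
      by_cases hx : x = i
      · subst hx; simp
      · simp only [hx, if_false, hj]; split_ifs <;> rfl
    have := Finset.sum_congr (rfl : (Finset.univ : Finset (Fin k)) = _) (fun x _ => key x)
    simp only [Finset.sum_add_distrib, Finset.sum_ite_eq', Finset.mem_univ, if_true,
      Finset.sum_boole, Finset.filter_mem_eq_inter, Finset.univ_inter, Fin.card_Ioc,
      Nat.cast_id] at this
    omega
  · have key : ∀ x, moveR a i x + (if x = i then a i else 0)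
        = a x + (if x ∈ Finset.Ico j i then 1 else 0) := by
      intro x
      simp only [moveR, Finset.mem_Ico, Fin.lt_def, Fin.le_def]
      by_cases hx : x = i
      · subst hx; simp
      · simp only [hx, if_false]; split_ifs <;> omega
    have := Finset.sum_congr (rfl : (Finset.univ : Finset (Fin k)) = _) (fun x _ => key x)
    simp only [Finset.sum_add_distrib, Finset.sum_ite_eq', Finset.mem_univ, if_true,
      Finset.sum_boole, Finset.filter_mem_eq_inter, Finset.univ_inter, Fin.card_Ico,
      Nat.cast_id] at this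
    omega

/-- Sowing has no infinite play. -/
theorem move_wf (k : ℕ) : WellFounded (Move (k := k)) := by
  have hw : WellFounded (Pi.Lex (β := fun _ : Fin k => ℕ) (· < ·) (fun {_} => (· < ·))) :=
    Pi.Lex.wellFounded _ (fun _ => wellFounded_lt)
  refine Subrelation.wf ?_
    (InvImage.wf (fun a : Fin k → ℕ => fun x => if a x = 0 then 0 else (∑ j, a j) + 1 - a x) hw)
  intro b a h
  have hs := sum_move h
  have hle : ∀ x, a x ≤ ∑ j, a j := fun x =>
    Finset.single_le_sum (fun _ _ => Nat.zero_le _) (Finset.mem_univ x)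
  obtain ⟨i, ⟨⟨h1, j, hj, h2⟩, hb⟩ | ⟨⟨h1, j, hj, h2⟩, hb⟩⟩ := h
  · refine ⟨i, fun x hx => ?_, ?_⟩
    · have : b x = a x := by
        have := Fin.lt_def.1 hx
        rw [hb, moveL, if_neg hx.ne, if_neg (by omega)]
      simp only [hs, this]
    · have h0 : b i = 0 := by rw [hb, moveL, if_pos rfl]
      have h3 := hle i
      simp only [h0, if_true]
      rw [if_neg (by omega)]; omega
  · refine ⟨j, fun x hx => ?_, ?_⟩
    · have : b x = a x := by
        have := Fin.lt_def.1 hx
        rw [hb, moveR, if_neg (fun h => by subst h; omega), if_neg (by omega)]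
      simp only [hs, this]
    · have : b j = a j + 1 := by
        rw [hb, moveR, if_neg (fun h => by subst h; omega), if_pos (by omega)]
      have h3 := hle j
      simp only [hs, this]
      rw [if_neg (by omega), if_neg (by omega)]; omega

/-- The Sowing position `a` (pots `0, …, k-1`) as a Conway game. -/
noncomputable def sowing {k : ℕ} : (Fin k → ℕ) → Game :=
  (move_wf k).fix fun a G =>
    Game.mk {i // LegalL a i} {i // LegalR a i}
      (fun i => G (moveL a i.1) ⟨i.1, Or.inl ⟨i.2, rfl⟩⟩)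
      (fun i => G (moveR a i.1) ⟨i.1, Or.inr ⟨i.2, rfl⟩⟩)

open Classical in
/-- The position for `2^(-n)`, with centre `c = 12 * 2^n + 3` and `20 * 2^n + 7` pots. -/
noncomputable def pos (n : ℕ) : Fin (20 * 2 ^ n + 7) → ℕ := fun x =>
  if x.val + 8 = 12 * 2 ^ n + 3 then 17
  else if ∃ j : ℕ, x.val + 16 * 2 ^ j = 12 * 2 ^ n + 3 then 2 * (12 * 2 ^ n + 3 - x.val)
  else if ∃ u : ℕ, (x.val + 4 * u = 12 * 2 ^ n + 3 ∨ x.val = 12 * 2 ^ n + 3 + 4 * u) ∧
      (u = 0 ∨ ∃ j : ℕ, u = 2 ^ j ∨ u = 3 * 2 ^ j) then 0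
  else 20 * 2 ^ n + 7

end Pool.Agent.Work.MP_90e647_co
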