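import Pool.Agent.Work.MP_90e647_co.Defs

-- merged part: Pool.Agent.Work.MP_90e647_co.Games
section
namespace Pool.Agent.Work.MP_90e647_co

abbrev Le (G H : Game) : Prop := Cmp true G H
abbrev Lf (G H : Game) : Prop := Cmp false G H

theorem le_mk {α β γ δ : Type} {L : α → Game} {R : β → Game} {L' : γ → Game} {R' : δ → Game} :
    Le (Game.mk α β L R) (Game.mk γ δ L' R') ↔
      (∀ i, Lf (L i) (Game.mk γ δ L' R')) ∧ (∀ j, Lf (Game.mk α β L R) (R' j)) := by
  constructor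
  · intro h; cases h with
    | le h1 h2 => exact ⟨h1, h2⟩
  · rintro ⟨h1, h2⟩; exact Cmp.le h1 h2

theorem lf_mk {α β γ δ : Type} {L : α → Game} {R : β → Game} {L' : γ → Game} {R' : δ → Game} :
    Lf (Game.mk α β L R) (Game.mk γ δ L' R') ↔
      (∃ i, Le (Game.mk α β L R) (L' i)) ∨ (∃ j, Le (R j) (Game.mk γ δ L' R')) := by
  constructor
  · intro h; cases h with
    | lfL i h => exact Or.inl ⟨i, h⟩
    | lfR j h => exact Or.inr ⟨j, h⟩
  · rintro (⟨i, h⟩ | ⟨j, h⟩)
    · exact Cmp.lfL i h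
    · exact Cmp.lfR j h

theorem le_refl (G : Game) : Le G G := by
  induction G with
  | mk α β L R ihL ihR =>
    exact Cmp.le (fun i => Cmp.lfL i (ihL i)) (fun j => Cmp.lfR j (ihR j))

/-- Sanity check: `⧏` is the negation of `≥`, so `Cmp true` is Conway's order. -/
theorem lf_iff_not_le (G H : Game) : (Lf G H ↔ ¬ Le H G) ∧ (Lf H G ↔ ¬ Le G H) := by
  induction G generalizing H with
  | mk α β L R ihL ihR =>
    induction H with
    | mk γ δ L' R' jhL jhR =>
      constructor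
      · rw [lf_mk, le_mk, not_and_or]
        simp only [not_forall]
        refine or_congr (exists_congr fun i => ?_) (exists_congr fun j => ?_)
        · rw [(jhL i).2, not_not]
        · rw [(ihR j _).2, not_not]
      · rw [lf_mk, le_mk, not_and_or]
        simp only [not_forall]
        refine or_congr (exists_congr fun i => ?_) (exists_congr fun j => ?_)
        · rw [(ihL i _).1, not_not]
        · rw [(jhR j).1, not_not]

theorem lf_iff {G H : Game} : Lf G H ↔ ¬ Le H G := (lf_iff_not_le G H).1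

theorem le_mk' {α β γ δ : Type} {L : α → Game} {R : β → Game} {L' : γ → Game} {R' : δ → Game} :
    Le (Game.mk α β L R) (Game.mk γ δ L' R') ↔
      (∀ i, ¬ Le (Game.mk γ δ L' R') (L i)) ∧ (∀ j, ¬ Le (R' j) (Game.mk α β L R)) := by
  simp only [le_mk, lf_iff]

theorem not_le_left {α β : Type} {L : α → Game} {R : β → Game} {H : Game}
    (h : Le (Game.mk α β L R) H) (i : α) : ¬ Le H (L i) := by
  cases H; exact (le_mk'.1 h).1 i

theorem not_le_right {α β : Type} {L : α → Game} {R : β → Game} {H : Game}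
    (h : Le H (Game.mk α β L R)) (j : β) : ¬ Le (R j) H := by
  cases H; exact (le_mk'.1 h).2 j

theorem le_trans_aux (x y z : Game) :
    (Le x y → Le y z → Le x z) ∧ (Le y z → Le z x → Le y x) ∧ (Le z x → Le x y → Le z y) := by
  induction x generalizing y z with
  | mk xl xr xL xR ixL ixR =>
  induction y generalizing z with
  | mk yl yr yL yR iyL iyR =>
  induction z with
  | mk zl zr zL zR izL izR =>
    refine ⟨fun h1 h2 => le_mk'.2 ⟨fun i h => ?_, fun j h => ?_⟩,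
      fun h1 h2 => le_mk'.2 ⟨fun i h => ?_, fun j h => ?_⟩,
      fun h1 h2 => le_mk'.2 ⟨fun i h => ?_, fun j h => ?_⟩⟩
    · exact not_le_left h1 i ((ixL i _ _).2.1 h2 h)
    · exact not_le_right h2 j ((izR j).2.2 h h1)
    · exact not_le_left h1 i ((iyL i _).2.2 h2 h)
    · exact not_le_right h2 j ((ixR j _ _).1 h h1)
    · exact not_le_left h1 i ((izL i).1 h2 h)
    · exact not_le_right h2 j ((iyR j _).2.1 h h1)

theorem Le.trans {x y z : Game} (h1 : Le x y) (h2 : Le y z) : Le x z :=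
  (le_trans_aux x y z).1 h1 h2

def star : Game := Game.mk Unit Unit (fun _ => zero) (fun _ => zero)
def starD (m : ℕ) : Game := Game.mk Unit Unit (fun _ => powHalf m) (fun _ => powHalf m)

theorem powHalf_zero : powHalf 0 = Game.mk Unit Empty (fun _ => zero) Empty.elim := rfl
theorem powHalf_succ (m : ℕ) :
    powHalf (m + 1) = Game.mk Unit Unit (fun _ => zero) (fun _ => powHalf m) := rfl

theorem not_D_le_zero (m : ℕ) : ¬ Le (powHalf m) zero := by
  intro h
  cases m with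
  | zero => exact not_le_left h () (le_refl _)
  | succ m => exact not_le_left h () (le_refl _)

theorem zero_le_D (m : ℕ) : Le zero (powHalf m) := by
  cases m with
  | zero => exact le_mk'.2 ⟨fun i => i.elim, fun j => j.elim⟩
  | succ m => exact le_mk'.2 ⟨fun i => i.elim, fun _ => not_D_le_zero m⟩

theorem not_D_le_star (m : ℕ) : ¬ Le (powHalf m) star := fun h =>
  not_le_right h () (zero_le_D m)

theorem star_le_D (m : ℕ) : Le star (powHalf m) := by
  cases m with
  | zero => exact le_mk'.2 ⟨fun _ => not_D_le_zero 0, fun j => j.elim⟩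
  | succ m => exact le_mk'.2 ⟨fun _ => not_D_le_zero (m + 1), fun _ => not_D_le_star m⟩

theorem not_D_le_succ (m : ℕ) : ¬ Le (powHalf m) (powHalf (m + 1)) := fun h =>
  not_le_right h () (le_refl _)

theorem succ_le_D (m : ℕ) : Le (powHalf (m + 1)) (powHalf m) := by
  induction m with
  | zero => exact le_mk'.2 ⟨fun _ => not_D_le_zero 0, fun j => j.elim⟩
  | succ m ih =>
    exact le_mk'.2 ⟨fun _ => not_D_le_zero (m + 1), fun _ h => not_le_right h () ih⟩

theorem not_D_le_starD (m : ℕ) : ¬ Le (powHalf m) (starD m) := fun h =>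
  not_le_right h () (le_refl _)

theorem not_starD_le_D (m : ℕ) : ¬ Le (starD m) (powHalf m) := fun h =>
  not_le_left h () (le_refl _)

theorem zero_le_starD (m : ℕ) : Le zero (starD m) :=
  le_mk'.2 ⟨fun i => i.elim, fun _ => not_D_le_zero m⟩

theorem starD_succ_le (m : ℕ) : Le (starD (m + 1)) (powHalf m) := by
  cases m with
  | zero => exact le_mk'.2 ⟨fun _ => not_D_le_succ 0, fun j => j.elim⟩
  | succ m =>
    exact le_mk'.2 ⟨fun _ => not_D_le_succ (m + 1),
      fun _ h => not_le_right h () ((succ_le_D (m + 1)).trans (succ_le_D m))⟩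

theorem succ_le_starD (m : ℕ) : Le (powHalf (m + 1)) (starD m) :=
  le_mk'.2 ⟨fun _ h => not_le_left h () (zero_le_D m), fun _ => not_D_le_succ m⟩

theorem not_starD_le_succ (m : ℕ) : ¬ Le (starD m) (powHalf (m + 1)) := fun h =>
  not_le_left h () (succ_le_D m)

/-- `0` or `*`. -/
def Z (e : Prop) (G : Game) : Prop := (¬ e → Equiv G zero) ∧ (e → Equiv G star)
/-- `2^(-m)` or `2^(-m) + *`. -/
def T (m : ℕ) (e : Prop) (G : Game) : Prop :=
  (¬ e → Equiv G (powHalf m)) ∧ (e → Equiv G (starD m))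

theorem Z.le_D {e : Prop} {G : Game} (h : Z e G) (m : ℕ) : Le G (powHalf m) := by
  by_cases he : e
  · exact Le.trans (h.2 he).1 (star_le_D m)
  · exact Le.trans (h.1 he).1 (zero_le_D m)

theorem Z.not_D_le {e : Prop} {G : Game} (h : Z e G) (m : ℕ) : ¬ Le (powHalf m) G := by
  intro h'
  by_cases he : e
  · exact not_D_le_star m (h'.trans (h.2 he).1)
  · exact not_D_le_zero m (h'.trans (h.1 he).1)

theorem T.succ_le {e : Prop} {G : Game} {m : ℕ} (h : T m e G) : Le (powHalf (m + 1)) G := by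
  by_cases he : e
  · exact (succ_le_starD m).trans (h.2 he).2
  · exact (succ_le_D m).trans (h.1 he).2

theorem T.not_le_succ {e : Prop} {G : Game} {m : ℕ} (h : T m e G) :
    ¬ Le G (powHalf (m + 1)) := by
  intro h'
  by_cases he : e
  · exact not_starD_le_succ m (Le.trans (h.2 he).2 h')
  · exact not_D_le_succ m (Le.trans (h.1 he).2 h')

theorem equiv_zero {α β : Type} {L : α → Game} {R : β → Game}
    (hL : ∀ i, Equiv (L i) star) (hR : ∀ j, Equiv (R j) star) : Equiv (Game.mk α β L R) zero := by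
  refine ⟨le_mk'.2 ⟨fun i h => ?_, fun j => j.elim⟩, le_mk'.2 ⟨fun j => j.elim, fun j h => ?_⟩⟩
  · exact not_le_right (Le.trans h (hL i).1) () (le_refl _)
  · exact not_le_left (Le.trans (hR j).2 h) () (le_refl _)

theorem equiv_star {α β : Type} {L : α → Game} {R : β → Game} (i0 : α) (j0 : β)
    (hL : ∀ i, Equiv (L i) zero) (hR : ∀ j, Equiv (R j) zero) : Equiv (Game.mk α β L R) star := by
  refine ⟨le_mk'.2 ⟨fun i h => ?_, fun _ h => ?_⟩, le_mk'.2 ⟨fun _ h => ?_, fun j h => ?_⟩⟩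
  · exact not_le_left h () (hL i).1
  · exact not_le_right h j0 (hR j0).1
  · exact not_le_left h i0 (hL i0).2
  · exact not_le_right h () (hR j).2

theorem equiv_starD {α β : Type} {L : α → Game} {R : β → Game} {m : ℕ} (i0 : α) (j0 : β)
    (hi : Le (powHalf m) (L i0)) (hj : Le (R j0) (powHalf m))
    (hL : ∀ i, Le (L i) (powHalf m)) (hR : ∀ j, Le (powHalf m) (R j)) :
    Equiv (Game.mk α β L R) (starD m) := by
  refine ⟨le_mk'.2 ⟨fun i h => ?_, fun _ h => ?_⟩, le_mk'.2 ⟨fun _ h => ?_, fun j h => ?_⟩⟩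
  · exact not_le_left h () (hL i)
  · exact not_le_right h j0 hj
  · exact not_le_left h i0 hi
  · exact not_le_right h () (hR j)

theorem equiv_D {α β : Type} {L : α → Game} {R : β → Game} {m : ℕ} (i0 : α)
    (hi : Le zero (L i0)) (hj : ∀ m', m = m' + 1 → ∃ j0, Le (R j0) (powHalf m'))
    (hL : ∀ i, ¬ Le (powHalf m) (L i)) (hR : ∀ j, ¬ Le (R j) (powHalf m)) :
    Equiv (Game.mk α β L R) (powHalf m) := by
  cases m with
  | zero =>
    exact ⟨le_mk'.2 ⟨hL, fun j => j.elim⟩, le_mk'.2 ⟨fun _ h => not_le_left h i0 hi, hR⟩⟩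
  | succ m =>
    obtain ⟨j0, hj0⟩ := hj m rfl
    exact ⟨le_mk'.2 ⟨hL, fun _ h => not_le_right h j0 hj0⟩,
      le_mk'.2 ⟨fun _ h => not_le_left h i0 hi, hR⟩⟩

theorem sowing_eq {k : ℕ} (a : Fin k → ℕ) :
    sowing a = Game.mk {i // LegalL a i} {i // LegalR a i}
      (fun i => sowing (moveL a i.1)) (fun i => sowing (moveR a i.1)) := by
  unfold sowing
  rw [WellFounded.fix_eq]

end Pool.Agent.Work.MP_90e647_co
end

-- merged part: Pool.Agent.Work.MP_90e647_co.Inv
section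
namespace Pool.Agent.Work.MP_90e647_co

open Classical

def Sp (n x : ℕ) : Prop :=
  ∃ u : ℕ, (x + 4 * u = 12 * 2 ^ n + 3 ∨ x = 12 * 2 ^ n + 3 + 4 * u) ∧
    (u = 0 ∨ ∃ j : ℕ, u = 2 ^ j ∨ u = 3 * 2 ^ j)

def El (n j x : ℕ) : Prop := ∃ i, j < i ∧ x + 4 * 2 ^ i = 12 * 2 ^ n + 3

def Sm (n j : ℕ) (al : Prop) (x : ℕ) : Prop :=
  Sp n x ∧ ¬ El n j x ∧ ¬ (al ∧ x + 4 * 2 ^ j = 12 * 2 ^ n + 3)

structure Inv (n j : ℕ) (al : Prop) (a : Fin (20 * 2 ^ n + 7) → ℕ) : Prop where
  hj1 : 1 ≤ j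
  hjn : j ≤ n + 1
  X : ∀ x : Fin (20 * 2 ^ n + 7), ¬ Sp n x → 20 * 2 ^ n + 7 ≤ a x
  E : ∀ (i : ℕ) (x : Fin (20 * 2 ^ n + 7)), j < i → x.val + 4 * 2 ^ i = 12 * 2 ^ n + 3 →
    a x = 8 * 2 ^ i
  W : al → ∀ x : Fin (20 * 2 ^ n + 7), x.val + 4 * 2 ^ j = 12 * 2 ^ n + 3 → a x = 8 * 2 ^ j + 1
  S3 : ∀ x : Fin (20 * 2 ^ n + 7), Sm n j al x → a x ≤ 3
  S2 : al → ∀ x : Fin (20 * 2 ^ n + 7), Sm n j al x → a x ≤ 2
  S1 : al → ∀ x : Fin (20 * 2 ^ n + 7), Sm n j al x → x.val + 4 * 2 ^ j < 12 * 2 ^ n + 3 → a x ≤ 1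
  Z1 : ∀ x : Fin (20 * 2 ^ n + 7), Sm n j al x → x.val + 6 * 2 ^ j < 12 * 2 ^ n + 3 → a x = 0
  Z2 : ∀ x : Fin (20 * 2 ^ n + 7), Sm n j al x → 12 * 2 ^ n + 3 + 4 * 2 ^ j < x.val → a x = 0

noncomputable def cnt (n j : ℕ) (al : Prop) (a : Fin (20 * 2 ^ n + 7) → ℕ) : ℕ :=
  (Finset.univ.filter fun x : Fin (20 * 2 ^ n + 7) => Sm n j al x ∧ a x ≠ 0).card

theorem pow_lt {i j : ℕ} (h : j < i) : 2 * 2 ^ j ≤ 2 ^ i := by
  rw [← pow_succ']; exact Nat.pow_le_pow_right (by norm_num) h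

theorem pow_tri (i j : ℕ) : 2 * 2 ^ j ≤ 2 ^ i ∨ i = j ∨ 2 * 2 ^ i ≤ 2 ^ j := by
  rcases lt_trichotomy j i with h | h | h
  · exact Or.inl (pow_lt h)
  · exact Or.inr (Or.inl h.symm)
  · exact Or.inr (Or.inr (pow_lt h))

theorem three_ne (i j : ℕ) : 3 * 2 ^ i ≠ 2 ^ j := by
  intro h
  have : (3 : ℕ) ∣ 2 ^ j := ⟨_, h.symm⟩
  have := Nat.Prime.dvd_of_dvd_pow Nat.prime_three this
  omega

theorem Sp.mod {n x : ℕ} (h : Sp n x) : x % 4 = 3 := by
  obtain ⟨u, h, -⟩ := h; omega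

theorem sp_pow_left {n x : ℕ} (i : ℕ) (h : x + 4 * 2 ^ i = 12 * 2 ^ n + 3) : Sp n x :=
  ⟨2 ^ i, Or.inl h, Or.inr ⟨i, Or.inl rfl⟩⟩

theorem sp_pow_right {n x : ℕ} (i : ℕ) (h : x = 12 * 2 ^ n + 3 + 4 * 2 ^ i) : Sp n x :=
  ⟨2 ^ i, Or.inr h, Or.inr ⟨i, Or.inl rfl⟩⟩

theorem sp_three_left {n x : ℕ} (i : ℕ) (h : x + 12 * 2 ^ i = 12 * 2 ^ n + 3) : Sp n x :=
  ⟨3 * 2 ^ i, Or.inl (by omega), Or.inr ⟨i, Or.inr rfl⟩⟩

theorem classL {n j : ℕ} {al : Prop} {a : Fin (20 * 2 ^ n + 7) → ℕ} (h : Inv n j al a)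
    {x : Fin (20 * 2 ^ n + 7)} (hx : LegalL a x) :
    (Sm n j al x ∧ a x ≠ 0) ∨ (al ∧ x.val + 4 * 2 ^ j = 12 * 2 ^ n + 3) := by
  obtain ⟨h1, y, hy, h2⟩ := hx
  have hyl := y.2
  by_cases hs : Sp n x
  · by_cases he : El n j x
    · exfalso
      obtain ⟨i, hi, hxi⟩ := he
      have hax := h.E i x hi hxi
      have hp := pow_lt hi
      have hpos : 0 < 2 ^ j := by positivity
      have : a y = 0 := by
        refine h.Z2 y ⟨sp_pow_right i (by omega), ?_, ?_⟩ (by omega)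
        · rintro ⟨i', -, h'⟩; omega
        · rintro ⟨-, h'⟩; omega
      omega
    · by_cases hw : al ∧ x.val + 4 * 2 ^ j = 12 * 2 ^ n + 3
      · exact Or.inr hw
      · exact Or.inl ⟨⟨hs, he, hw⟩, by omega⟩
  · have := h.X x hs; omega

theorem classR {n j : ℕ} {al : Prop} {a : Fin (20 * 2 ^ n + 7) → ℕ} (h : Inv n j al a)
    {x : Fin (20 * 2 ^ n + 7)} (hx : LegalR a x) :
    (Sm n j al x ∧ a x ≠ 0) ∨ (al ∧ x.val + 4 * 2 ^ j = 12 * 2 ^ n + 3 ∧ j ≤ n) := by
  obtain ⟨h1, y, hy, h2⟩ := hx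
  have hxl := x.2
  by_cases hs : Sp n x
  · by_cases he : El n j x
    · exfalso
      obtain ⟨i, hi, hxi⟩ := he
      have hax := h.E i x hi hxi
      have hp := pow_lt hi
      have hpos : 0 < 2 ^ j := by positivity
      have : a y = 0 := by
        refine h.Z1 y ⟨sp_three_left i (by omega), ?_, ?_⟩ (by omega)
        · rintro ⟨i', -, h'⟩; exact three_ne i i' (by omega)
        · rintro ⟨-, h'⟩; omega
      omega
    · by_cases hw : al ∧ x.val + 4 * 2 ^ j = 12 * 2 ^ n + 3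
      · refine Or.inr ⟨hw.1, hw.2, ?_⟩
        have hax := h.W hw.1 x hw.2
        by_contra hc
        have hp : 2 * 2 ^ n ≤ 2 ^ j := pow_lt (by omega)
        have hpos : 0 < 2 ^ n := by positivity
        omega
      · exact Or.inl ⟨⟨hs, he, hw⟩, by omega⟩
  · have := h.X x hs; omega

theorem small_aux {n j : ℕ} {al : Prop} {a b : Fin (20 * 2 ^ n + 7) → ℕ} (h : Inv n j al a)
    {x : Fin (20 * 2 ^ n + 7)} (hx : Sm n j al x) (hx0 : a x ≠ 0) (hb0 : b x = 0)
    (hb1 : ∀ y : Fin (20 * 2 ^ n + 7), y ≠ x → Sp n y → b y = a y)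
    (hb2 : ∀ y : Fin (20 * 2 ^ n + 7), y ≠ x → a y ≤ b y) :
    Inv n j al b ∧ cnt n j al b + 1 = cnt n j al a := by
  have hle : ∀ y : Fin (20 * 2 ^ n + 7), Sp n y → b y ≤ a y := by
    intro y hy
    by_cases hyx : y = x
    · subst hyx; omega
    · exact (hb1 y hyx hy).le
  refine ⟨⟨h.hj1, h.hjn, fun y hy => ?_, fun i y hi hy => ?_, fun hal y hy => ?_,
    fun y hy => (hle y hy.1).trans (h.S3 y hy), fun hal y hy => (hle y hy.1).trans (h.S2 hal y hy),
    fun hal y hy h' => (hle y hy.1).trans (h.S1 hal y hy h'),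
    fun y hy h' => ?_, fun y hy h' => ?_⟩, ?_⟩
  · exact (h.X y hy).trans (hb2 y (fun e => hy (e ▸ hx.1)))
  · rw [hb1 y (fun e => hx.2.1 ⟨i, hi, e ▸ hy⟩) (sp_pow_left i hy)]; exact h.E i y hi hy
  · rw [hb1 y (fun e => hx.2.2 ⟨hal, e ▸ hy⟩) (sp_pow_left j hy)]; exact h.W hal y hy
  · have := hle y hy.1; have := h.Z1 y hy h'; omega
  · have := hle y hy.1; have := h.Z2 y hy h'; omega
  · unfold cnt
    rw [← Finset.card_erase_add_one (s := Finset.univ.filter fun x : Fin (20 * 2 ^ n + 7) =>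
      Sm n j al x ∧ a x ≠ 0) (a := x) (by simp [hx, hx0])]
    congr 2
    ext y
    simp only [Finset.mem_filter, Finset.mem_univ, true_and, Finset.mem_erase]
    constructor
    · rintro ⟨h1, h2⟩
      have hyx : y ≠ x := fun e => h2 (e ▸ hb0)
      exact ⟨hyx, h1, by rwa [← hb1 y hyx h1.1]⟩
    · rintro ⟨hyx, h1, h2⟩
      exact ⟨h1, by rwa [hb1 y hyx h1.1]⟩

theorem small {n j : ℕ} {al : Prop} {a : Fin (20 * 2 ^ n + 7) → ℕ} (h : Inv n j al a)
    {x : Fin (20 * 2 ^ n + 7)} (hx : Sm n j al x) (hx0 : a x ≠ 0) :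
    LegalL a x ∧ LegalR a x ∧
    (Inv n j al (moveL a x) ∧ cnt n j al (moveL a x) + 1 = cnt n j al a) ∧
    (Inv n j al (moveR a x) ∧ cnt n j al (moveR a x) + 1 = cnt n j al a) := by
  have h3 := h.S3 x hx
  have hm := hx.1.mod
  have hxl := x.2
  refine ⟨⟨by omega, ⟨x.val + a x, by omega⟩, rfl, ?_⟩,
    ⟨by omega, ⟨x.val - a x, by omega⟩, by simp only; omega, ?_⟩, ?_, ?_⟩
  · refine le_trans (by omega) (h.X _ fun hs => ?_)
    have := hs.mod; simp only at this; omega
  · refine le_trans (by omega) (h.X _ fun hs => ?_)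
    have := hs.mod; simp only at this; omega
  · refine small_aux h hx hx0 (by simp [moveL]) (fun y hy hs => ?_) (fun y hy => ?_)
    · have := hs.mod
      rw [moveL, if_neg hy, if_neg (by omega)]
    · rw [moveL, if_neg hy]; split_ifs <;> omega
  · refine small_aux h hx hx0 (by simp [moveR]) (fun y hy hs => ?_) (fun y hy => ?_)
    · have := hs.mod
      rw [moveR, if_neg hy, if_neg (by omega)]
    · rw [moveR, if_neg hy]; split_ifs <;> omega

theorem cnt_zero {n j : ℕ} {al : Prop} {a : Fin (20 * 2 ^ n + 7) → ℕ} (h : cnt n j al a = 0)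
    (x : Fin (20 * 2 ^ n + 7)) (hx : Sm n j al x) : a x = 0 := by
  by_contra h0
  have := Finset.card_eq_zero.1 h
  have hm : x ∈ Finset.univ.filter fun x : Fin (20 * 2 ^ n + 7) => Sm n j al x ∧ a x ≠ 0 := by
    simp [hx, h0]
  rw [this] at hm
  simp at hm

theorem cnt_pos {n j : ℕ} {al : Prop} {a : Fin (20 * 2 ^ n + 7) → ℕ} (h : cnt n j al a ≠ 0) :
    ∃ x : Fin (20 * 2 ^ n + 7), Sm n j al x ∧ a x ≠ 0 := by
  obtain ⟨x, hx⟩ := Finset.card_pos.1 (Nat.pos_of_ne_zero h)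
  exact ⟨x, (Finset.mem_filter.1 hx).2⟩

theorem even_range (n j : ℕ) (hj : j ≤ n + 1) :
    Even (Finset.univ.filter fun y : Fin (20 * 2 ^ n + 7) => Sp n y ∧
      12 * 2 ^ n + 3 < y.val + 4 * 2 ^ j ∧ y.val ≤ 12 * 2 ^ n + 3 + 4 * 2 ^ j).card := by
  have hp : 2 ^ j ≤ 2 * 2 ^ n := by
    rw [← pow_succ']; exact Nat.pow_le_pow_right (by norm_num) hj
  have hpos : 0 < 2 ^ j := by positivity
  set s := Finset.univ.filter fun y : Fin (20 * 2 ^ n + 7) => Sp n y ∧
      12 * 2 ^ n + 3 < y.val + 4 * 2 ^ j ∧ y.val ≤ 12 * 2 ^ n + 3 + 4 * 2 ^ j with hs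
  have hmem : ∀ y, y ∈ s ↔ Sp n y ∧
      12 * 2 ^ n + 3 < y.val + 4 * 2 ^ j ∧ y.val ≤ 12 * 2 ^ n + 3 + 4 * 2 ^ j := by
    intro y; simp [hs]
  let g : ∀ y ∈ s, Fin (20 * 2 ^ n + 7) := fun y hy =>
    ⟨if y.val = 12 * 2 ^ n + 3 then 12 * 2 ^ n + 3 + 4 * 2 ^ j
      else if y.val = 12 * 2 ^ n + 3 + 4 * 2 ^ j then 12 * 2 ^ n + 3
      else 2 * (12 * 2 ^ n + 3) - y.val, by
        have := ((hmem y).1 hy).2
        split_ifs <;> omega⟩
  have hsum : ∑ _y ∈ s, (1 : ZMod 2) = 0 := by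
    refine Finset.sum_involution g (fun _ _ => by decide) (fun y hy _ e => ?_) (fun y hy => ?_)
      (fun y hy => ?_)
    · have := congrArg Fin.val e
      simp only [g] at this
      split_ifs at this <;> omega
    · obtain ⟨⟨u, hu, hu'⟩, h2, h3⟩ := (hmem y).1 hy
      rw [hmem]
      simp only [g]
      split_ifs with c1 c2
      · exact ⟨sp_pow_right j rfl, by omega, by omega⟩
      · exact ⟨⟨0, by omega, Or.inl rfl⟩, by omega, by omega⟩
      · exact ⟨⟨u, by clear hu'; omega, hu'⟩, by clear hu'; omega, by clear hu'; omega⟩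
    · have := ((hmem y).1 hy).2
      apply Fin.ext
      simp only [g]
      split_ifs <;> omega
  rw [Finset.sum_const, nsmul_eq_mul, mul_one] at hsum
  exact (ZMod.natCast_eq_zero_iff_even).1 hsum

theorem kill {n j : ℕ} {a : Fin (20 * 2 ^ n + 7) → ℕ} (h : Inv n j True a)
    {x : Fin (20 * 2 ^ n + 7)} (hx : x.val + 4 * 2 ^ j = 12 * 2 ^ n + 3) :
    LegalL a x ∧ Inv n j False (moveL a x) ∧
      (cnt n j True a = 0 → Even (cnt n j False (moveL a x))) := by
  have hp : 2 ^ j ≤ 2 * 2 ^ n := by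
    rw [← pow_succ']; exact Nat.pow_le_pow_right (by norm_num) h.hjn
  have hpos : 0 < 2 ^ j := by positivity
  have hax := h.W trivial x hx
  have hsm : ∀ y : Fin (20 * 2 ^ n + 7), y ≠ x → Sm n j False y → Sm n j True y := by
    intro y hy hs
    exact ⟨hs.1, hs.2.1, fun h' => hy (Fin.ext (by omega))⟩
  refine ⟨⟨by omega, ⟨x.val + a x, by omega⟩, rfl, ?_⟩,
    ⟨h.hj1, h.hjn, fun y hy => ?_, fun i y hi hy => ?_, fun hal => hal.elim, fun y hy => ?_,
      fun hal => hal.elim, fun hal => hal.elim, fun y hy h' => ?_, fun y hy h' => ?_⟩,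
    fun h0 => ?_⟩
  · refine le_trans (by omega) (h.X _ fun hs => ?_)
    have := hs.mod; simp only at this; omega
  · have := h.X y hy
    rw [moveL, if_neg (fun e : y = x => hy (e ▸ sp_pow_left j hx))]; split_ifs <;> omega
  · have := pow_lt hi
    rw [moveL, if_neg (fun e => by subst e; omega), if_neg (by omega)]; exact h.E i y hi hy
  · by_cases hyx : y = x
    · simp [moveL, hyx]
    · have := h.S2 trivial y (hsm y hyx hy)
      rw [moveL, if_neg hyx]; split_ifs <;> omega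
  · have hyx : y ≠ x := fun e => by subst e; omega
    rw [moveL, if_neg hyx, if_neg (by omega)]; exact h.Z1 y (hsm y hyx hy) h'
  · have hyx : y ≠ x := fun e => by subst e; omega
    have := hy.1.mod
    rw [moveL, if_neg hyx, if_neg (by omega)]; exact h.Z2 y (hsm y hyx hy) h'
  · convert even_range n j h.hjn using 1
    unfold cnt
    congr 1
    ext y
    simp only [Finset.mem_filter, Finset.mem_univ, true_and]
    constructor
    · rintro ⟨h1, h2⟩
      have hyx : y ≠ x := fun e => h2 (by simp [moveL, e])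
      have := cnt_zero h0 y (hsm y hyx h1)
      have hm := h1.1.mod
      rw [moveL, if_neg hyx] at h2
      split_ifs at h2 with c
      · exact ⟨h1.1, by omega, by omega⟩
      · exact (h2 this).elim
    · rintro ⟨h1, h2, h3⟩
      have hyx : y ≠ x := fun e => by subst e; omega
      refine ⟨⟨h1, ?_, fun h' => h'.1⟩, ?_⟩
      · rintro ⟨i, hi, h'⟩
        have := pow_lt hi; omega
      · rw [moveL, if_neg hyx, if_pos (by omega)]; omega

theorem step {n j : ℕ} {a : Fin (20 * 2 ^ n + 7) → ℕ} (h : Inv n j True a) (hjn : j ≤ n)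
    {x : Fin (20 * 2 ^ n + 7)} (hx : x.val + 4 * 2 ^ j = 12 * 2 ^ n + 3) :
    LegalR a x ∧ Inv n (j + 1) True (moveR a x) ∧
      (cnt n j True a = 0 → Even (cnt n (j + 1) True (moveR a x))) := by
  have hp : 2 ^ j ≤ 2 ^ n := Nat.pow_le_pow_right (by norm_num) hjn
  have hpos : 0 < 2 ^ j := by positivity
  have hax := h.W trivial x hx
  have hs1 : 2 ^ (j + 1) = 2 * 2 ^ j := pow_succ' _ _
  have hsm : ∀ y : Fin (20 * 2 ^ n + 7), y ≠ x → Sm n (j + 1) True y → Sm n j True y := by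
    intro y hy hs
    refine ⟨hs.1, ?_, fun h' => hy (Fin.ext (by omega))⟩
    rintro ⟨i, hi, h'⟩
    rcases Nat.lt_or_ge (j + 1) i with c | c
    · exact hs.2.1 ⟨i, c, h'⟩
    · obtain rfl : i = j + 1 := by omega
      exact hs.2.2 ⟨trivial, h'⟩
  have hxl := x.2
  refine ⟨⟨by omega, ⟨x.val - a x, by omega⟩, by simp only; omega, ?_⟩,
    ⟨by omega, by omega, fun y hy => ?_, fun i y hi hy => ?_, fun _ y hy => ?_, fun y hy => ?_,
      fun _ y hy => ?_, fun _ y hy h' => ?_, fun y hy h' => ?_, fun y hy h' => ?_⟩,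
    fun h0 => ?_⟩
  · refine le_trans (by omega) (h.X _ fun hs => ?_)
    have := hs.mod; simp only at this; omega
  · have := h.X y hy
    rw [moveR, if_neg (fun e : y = x => hy (e ▸ sp_pow_left j hx))]; split_ifs <;> omega
  · have := pow_lt hi
    rw [moveR, if_neg (fun e => by subst e; omega), if_neg (by omega)]
    exact h.E i y (by omega) hy
  · rw [moveR, if_neg (fun e => by subst e; omega), if_pos (by omega),
      h.E (j + 1) y (by omega) hy]
  · by_cases hyx : y = x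
    · simp [moveR, hyx]
    · have := h.S2 trivial y (hsm y hyx hy)
      rw [moveR, if_neg hyx]; split_ifs <;> omega
  · by_cases hyx : y = x
    · simp [moveR, hyx]
    · have := h.S2 trivial y (hsm y hyx hy)
      have := h.S1 trivial y (hsm y hyx hy)
      rw [moveR, if_neg hyx]; split_ifs <;> omega
  · have hyx : y ≠ x := fun e => by subst e; omega
    have := h.Z1 y (hsm y hyx hy) (by omega)
    rw [moveR, if_neg hyx]; split_ifs <;> omega
  · have hyx : y ≠ x := fun e => by subst e; omega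
    have := hy.1.mod
    rw [moveR, if_neg hyx, if_neg (by omega)]; exact h.Z1 y (hsm y hyx hy) (by omega)
  · have hyx : y ≠ x := fun e => by subst e; omega
    rw [moveR, if_neg hyx, if_neg (by omega)]; exact h.Z2 y (hsm y hyx hy) (by omega)
  · obtain ⟨i, rfl⟩ : ∃ i, j = i + 1 := ⟨j - 1, by have := h.hj1; omega⟩
    have hs0 : 2 ^ (i + 1) = 2 * 2 ^ i := pow_succ' _ _
    have hpos0 : 0 < 2 ^ i := by positivity
    let r1 : Fin (20 * 2 ^ n + 7) := ⟨12 * 2 ^ n + 3 - 12 * 2 ^ i, by omega⟩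
    let r2 : Fin (20 * 2 ^ n + 7) := ⟨12 * 2 ^ n + 3 - 12 * 2 ^ (i + 1), by omega⟩
    have hne : r1 ≠ r2 := fun e => by
      have := congrArg Fin.val e
      simp only [r1, r2] at this; omega
    have : cnt n (i + 1 + 1) True (moveR a x) = ({r1, r2} : Finset _).card := by
      unfold cnt
      congr 1
      ext y
      simp only [Finset.mem_filter, Finset.mem_univ, true_and, Finset.mem_insert,
        Finset.mem_singleton]
      constructor
      · rintro ⟨h1, h2⟩
        have hyx : y ≠ x := fun e => h2 (by simp [moveR, e])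
        have := cnt_zero h0 y (hsm y hyx h1)
        have hm := h1.1.mod
        rw [moveR, if_neg hyx] at h2
        split_ifs at h2 with c
        · obtain ⟨⟨u, hu, rfl | ⟨l, rfl | rfl⟩⟩, he, hw⟩ := h1
          · omega
          · exfalso
            rcases pow_tri l (i + 1 + 1) with c1 | c1 | c1
            · omega
            · subst c1; exact hw ⟨trivial, by omega⟩
            · omega
          · rcases pow_tri l (i + 1) with c1 | c1 | c1
            · omega
            · subst c1; exact Or.inr (Fin.ext (by simp only [r2]; omega))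
            · rcases pow_tri l i with c2 | c2 | c2
              · omega
              · subst c2; exact Or.inl (Fin.ext (by simp only [r1]; omega))
              · omega
        · exact (h2 this).elim
      · rintro (rfl | rfl)
        · refine ⟨⟨sp_three_left i (by simp only [r1]; omega), ?_, ?_⟩, ?_⟩
          · rintro ⟨l, hl, h'⟩
            exact three_ne i l (by simp only [r1] at h'; omega)
          · rintro ⟨-, h'⟩
            simp only [r1] at h'; omega
          · rw [moveR, if_neg (fun e => by have := congrArg Fin.val e; simp only [r1] at this; omega),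
              if_pos (by simp only [r1]; omega)]; omega
        · refine ⟨⟨sp_three_left (i + 1) (by simp only [r2]; omega), ?_, ?_⟩, ?_⟩
          · rintro ⟨l, hl, h'⟩
            exact three_ne (i + 1) l (by simp only [r2] at h'; omega)
          · rintro ⟨-, h'⟩
            simp only [r2] at h'; omega
          · rw [moveR, if_neg (fun e => by have := congrArg Fin.val e; simp only [r2] at this; omega),
              if_pos (by simp only [r2]; omega)]; omega
    rw [this, Finset.card_pair hne]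
    exact even_two

end Pool.Agent.Work.MP_90e647_co
end

-- merged part: Pool.Agent.Work.MP_90e647_co.Main
section
namespace Pool.Agent.Work.MP_90e647_co

open Classical

theorem odd_succ_iff {c d : ℕ} (h : c + 1 = d) : Odd c ↔ ¬ Odd d := by
  subst h; rw [Nat.odd_add_one, not_not]

theorem dead_value (n j : ℕ) (a : Fin (20 * 2 ^ n + 7) → ℕ) :
    Inv n j False a → Z (Odd (cnt n j False a)) (sowing a) := by
  induction a using (move_wf (20 * 2 ^ n + 7)).induction with
  | _ a ih =>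
  intro h
  have hL : ∀ i : {i // LegalL a i}, Z (¬ Odd (cnt n j False a)) (sowing (moveL a i.1)) := by
    intro i
    rcases classL h i.2 with ⟨h1, h2⟩ | ⟨h1, -⟩
    · obtain ⟨-, -, ⟨h3, h4⟩, -⟩ := small h h1 h2
      have := ih _ ⟨i.1, Or.inl ⟨i.2, rfl⟩⟩ h3
      rwa [propext (odd_succ_iff h4)] at this
    · exact h1.elim
  have hR : ∀ i : {i // LegalR a i}, Z (¬ Odd (cnt n j False a)) (sowing (moveR a i.1)) := by
    intro i
    rcases classR h i.2 with ⟨h1, h2⟩ | ⟨h1, -⟩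
    · obtain ⟨-, -, -, ⟨h3, h4⟩⟩ := small h h1 h2
      have := ih _ ⟨i.1, Or.inr ⟨i.2, rfl⟩⟩ h3
      rwa [propext (odd_succ_iff h4)] at this
    · exact h1.elim
  rw [sowing_eq]
  refine ⟨fun he => equiv_zero (fun i => (hL i).2 he) (fun i => (hR i).2 he), fun he => ?_⟩
  obtain ⟨x, hx, hx0⟩ := cnt_pos (n := n) (j := j) (al := False) (a := a)
    (fun e => by rw [e] at he; exact absurd he (by decide))
  obtain ⟨h1, h2, -⟩ := small h hx hx0
  exact equiv_star ⟨x, h1⟩ ⟨x, h2⟩ (fun i => (hL i).1 (not_not.2 he))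
    (fun i => (hR i).1 (not_not.2 he))

theorem alive_value (n : ℕ) (a : Fin (20 * 2 ^ n + 7) → ℕ) :
    ∀ j m, j + m = n + 1 → Inv n j True a → T m (Odd (cnt n j True a)) (sowing a) := by
  induction a using (move_wf (20 * 2 ^ n + 7)).induction with
  | _ a ih =>
  intro j m hjm h
  have hp : 2 ^ j ≤ 2 * 2 ^ n := by
    rw [← pow_succ']; exact Nat.pow_le_pow_right (by norm_num) h.hjn
  let w : Fin (20 * 2 ^ n + 7) := ⟨12 * 2 ^ n + 3 - 4 * 2 ^ j, by omega⟩
  have hw : w.val + 4 * 2 ^ j = 12 * 2 ^ n + 3 := by simp only [w]; omega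
  have hsmall : ∀ x : Fin (20 * 2 ^ n + 7), Sm n j True x → a x ≠ 0 →
      LegalL a x ∧ LegalR a x ∧ T m (¬ Odd (cnt n j True a)) (sowing (moveL a x)) ∧
        T m (¬ Odd (cnt n j True a)) (sowing (moveR a x)) := by
    intro x h1 h2
    obtain ⟨l1, l2, ⟨h3, h4⟩, ⟨h5, h6⟩⟩ := small h h1 h2
    have t1 := ih _ ⟨x, Or.inl ⟨l1, rfl⟩⟩ j m hjm h3
    have t2 := ih _ ⟨x, Or.inr ⟨l2, rfl⟩⟩ j m hjm h5
    rw [propext (odd_succ_iff h4)] at t1
    rw [propext (odd_succ_iff h6)] at t2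
    exact ⟨l1, l2, t1, t2⟩
  have hL : ∀ i : {i // LegalL a i}, T m (¬ Odd (cnt n j True a)) (sowing (moveL a i.1)) ∨
      ∃ e, Z e (sowing (moveL a i.1)) := by
    intro i
    rcases classL h i.2 with ⟨h1, h2⟩ | ⟨-, h1⟩
    · exact Or.inl (hsmall _ h1 h2).2.2.1
    · exact Or.inr ⟨_, dead_value n j _ (kill h h1).2.1⟩
  have hR : ∀ i : {i // LegalR a i}, T m (¬ Odd (cnt n j True a)) (sowing (moveR a i.1)) ∨
      ∃ e m', m = m' + 1 ∧ T m' e (sowing (moveR a i.1)) := by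
    intro i
    rcases classR h i.2 with ⟨h1, h2⟩ | ⟨-, h1, h2⟩
    · exact Or.inl (hsmall _ h1 h2).2.2.2
    · obtain ⟨m', rfl⟩ : ∃ m', m = m' + 1 := ⟨m - 1, by omega⟩
      exact Or.inr ⟨_, m', rfl,
        ih _ ⟨i.1, Or.inr ⟨i.2, rfl⟩⟩ (j + 1) m' (by omega) (step h h2 h1).2.1⟩
  rw [sowing_eq]
  refine ⟨fun he => ?_, fun he => ?_⟩
  · have hL' : ∀ i : {i // LegalL a i}, ¬ Le (powHalf m) (sowing (moveL a i.1)) := by
      intro i hle
      rcases hL i with t | ⟨e, z⟩
      · exact not_D_le_starD m (hle.trans (t.2 he).1)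
      · exact z.not_D_le m hle
    have hR' : ∀ i : {i // LegalR a i}, ¬ Le (sowing (moveR a i.1)) (powHalf m) := by
      intro i hle
      rcases hR i with t | ⟨e, m', rfl, t⟩
      · exact not_starD_le_D m (Le.trans (t.2 he).2 hle)
      · exact t.not_le_succ hle
    by_cases h0 : cnt n j True a = 0
    · obtain ⟨k1, k2, k3⟩ := kill h hw
      refine equiv_D ⟨w, k1⟩ ((dead_value n j _ k2).1 (Nat.not_odd_iff_even.2 (k3 h0))).2
        ?_ hL' hR'
      rintro m' rfl
      obtain ⟨s1, s2, s3⟩ := step h (by omega) hw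
      exact ⟨⟨w, s1⟩, ((ih _ ⟨w, Or.inr ⟨s1, rfl⟩⟩ (j + 1) m' (by omega) s2).1
        (Nat.not_odd_iff_even.2 (s3 h0))).1⟩
    · obtain ⟨x, hx, hx0⟩ := cnt_pos h0
      obtain ⟨l1, l2, t1, t2⟩ := hsmall x hx hx0
      refine equiv_D ⟨x, l1⟩ ((zero_le_starD m).trans (t1.2 he).2) ?_ hL' hR'
      rintro m' rfl
      exact ⟨⟨x, l2⟩, Le.trans (t2.2 he).1 (starD_succ_le m')⟩
  · obtain ⟨x, hx, hx0⟩ := cnt_pos (n := n) (j := j) (al := True) (a := a)
      (fun e => by rw [e] at he; exact absurd he (by decide))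
    obtain ⟨l1, l2, t1, t2⟩ := hsmall x hx hx0
    refine equiv_starD ⟨x, l1⟩ ⟨x, l2⟩ (t1.1 (not_not.2 he)).2 (t2.1 (not_not.2 he)).1
      (fun i => ?_) (fun i => ?_)
    · rcases hL i with t | ⟨e, z⟩
      · exact (t.1 (not_not.2 he)).1
      · exact z.le_D m
    · rcases hR i with t | ⟨e, m', rfl, t⟩
      · exact (t.1 (not_not.2 he)).2
      · exact t.succ_le

theorem pos_sm (n : ℕ) (x : Fin (20 * 2 ^ n + 7)) (hx : Sm n 1 True x) : pos n x = 0 := by
  obtain ⟨h1, h2, h3⟩ := hx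
  unfold Sp at h1
  unfold pos
  rw [if_neg (fun e => h3 ⟨trivial, by omega⟩), if_neg, if_pos h1]
  rintro ⟨j, hj⟩
  refine h2 ⟨j + 2, by omega, ?_⟩
  rw [pow_add]; omega

theorem pos_inv (n : ℕ) : Inv n 1 True (pos n) := by
  refine ⟨le_rfl, by omega, fun x hx => ?_, fun i x hi hx => ?_, fun _ x hx => ?_,
    fun x hx => ?_, fun _ x hx => ?_, fun _ x hx _ => ?_, fun x hx _ => pos_sm n x hx,
    fun x hx _ => pos_sm n x hx⟩
  · unfold pos
    have hx' := hx
    unfold Sp at hx'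
    rw [if_neg (fun e => hx (sp_pow_left 1 (by omega))), if_neg, if_neg hx']
    rintro ⟨j, hj⟩
    refine hx (sp_pow_left (j + 2) ?_)
    rw [pow_add]; omega
  · obtain ⟨l, rfl⟩ : ∃ l, i = l + 2 := ⟨i - 2, by omega⟩
    have hpos : 0 < 2 ^ l := by positivity
    rw [pow_add] at hx ⊢
    unfold pos
    rw [if_neg (by omega), if_pos ⟨l, by omega⟩]; omega
  · unfold pos
    rw [if_pos (by omega)]; rfl
  · rw [pos_sm n x hx]; omega
  · rw [pos_sm n x hx]; omega
  · rw [pos_sm n x hx]; omega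

theorem pos_value (n : ℕ) : Equiv (sowing (pos n)) (powHalf n) := by
  refine (alive_value n (pos n) 1 n (by omega) (pos_inv n)).1 ?_
  have : cnt n 1 True (pos n) = 0 := by
    by_contra h0
    obtain ⟨x, hx, hx0⟩ := cnt_pos h0
    exact hx0 (pos_sm n x hx)
  rw [this]; decide

end Pool.Agent.Work.MP_90e647_co
end
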